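import Mathlib

/-!
Groups involved in a group (isomorphic to a quotient of a subgroup), nearly simple groups.
-/

noncomputable section

namespace Pool.Agent.PP

/-- `S` is involved in `G` : `S` is a quotient of a subgroup of `G`. -/
def Involves (G S : Type) [Group G] [Group S] : Prop :=
  ∃ (A : Subgroup G) (f : A →* S), Function.Surjective f

/-- `S` is a nonabelian simple group -/
def NonabSimple (S : Type) [Group S] : Prop :=
  IsSimpleGroup S ∧ ∃ a b : S, a * b ≠ b * a

/-- `G / (N C_G(N))` is nilpotent: some member of the lower central series of `G` is contained in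
`N C_G(N)`. -/
def NilOut {G : Type} [Group G] (N : Subgroup G) : Prop :=
  ∃ n : ℕ, (⊤ : Subgroup G).lowerCentralSeries n ≤ N ⊔ Subgroup.centralizer (N : Set G)

/-- `D/Z(D)` is almost simple, its socle `T` (a normal subgroup with trivial centraliser) is
isomorphic to `S`, and `(D/Z(D))/T` is nilpotent: some member of the lower central series of
`D/Z(D)` is contained in `T`. -/
def NearlySimple (D S : Type) [Group D] [Group S] : Prop :=
  ∃ T : Subgroup (D ⧸ Subgroup.center D),
    T.Normal ∧ Subgroup.centralizer (T : Set (D ⧸ Subgroup.center D)) = ⊥ ∧ Nonempty (T ≃* S) ∧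
      ∃ n : ℕ, (⊤ : Subgroup (D ⧸ Subgroup.center D)).lowerCentralSeries n ≤ T

/-- `D/Z(D)` is almost simple, its socle `T` (a normal subgroup with trivial centraliser) is
isomorphic to `S`, and `(D/Z(D))/T` is a nilpotent group of order prime to `ℓ`. -/
def NearlySimpleL (ℓ : ℕ) (D S : Type) [Group D] [Group S] : Prop :=
  ∃ T : Subgroup (D ⧸ Subgroup.center D),
    T.Normal ∧ Subgroup.centralizer (T : Set (D ⧸ Subgroup.center D)) = ⊥ ∧ Nonempty (T ≃* S) ∧
      (∃ n : ℕ, (⊤ : Subgroup (D ⧸ Subgroup.center D)).lowerCentralSeries n ≤ T) ∧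
      ¬ ℓ ∣ T.index

theorem NearlySimpleL.nearlySimple {ℓ : ℕ} {D S : Type} [Group D] [Group S]
    (h : NearlySimpleL ℓ D S) : NearlySimple D S := by
  obtain ⟨T, h1, h2, h3, h4, -⟩ := h
  exact ⟨T, h1, h2, h3, h4⟩

/-- homomorphisms and the lower central series -/
theorem lcs_map_le {E G : Type*} [Group E] [Group G] (p : E →* G) (n : ℕ) :
    ((⊤ : Subgroup E).lowerCentralSeries n).map p ≤ (⊤ : Subgroup G).lowerCentralSeries n := by
  induction n with
  | zero => exact le_top
  | succ n ih =>
    rw [Subgroup.lowerCentralSeries_succ, Subgroup.lowerCentralSeries_succ,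
      Subgroup.map_commutator]
    exact Subgroup.commutator_mono ih le_top

theorem lcs_mem {E G : Type*} [Group E] [Group G] (p : E →* G) {n : ℕ} {x : E}
    (hx : x ∈ (⊤ : Subgroup E).lowerCentralSeries n) :
    p x ∈ (⊤ : Subgroup G).lowerCentralSeries n :=
  lcs_map_le p n ⟨x, hx, rfl⟩

/-- if `X / Y` is nilpotent, a member of the lower central series of `X` is contained in `Y` -/
theorem lcs_le_of_nilpotent {X : Type*} [Group X] (Y : Subgroup X) [Y.Normal]
    [h : Group.IsNilpotent (X ⧸ Y)] : ∃ n : ℕ, (⊤ : Subgroup X).lowerCentralSeries n ≤ Y := by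
  obtain ⟨n, hn⟩ := Subgroup.nilpotent_iff_lowerCentralSeries.mp h
  refine ⟨n, fun x hx => ?_⟩
  have := lcs_mem (QuotientGroup.mk' Y) hx
  rw [hn, Subgroup.mem_bot] at this
  exact (QuotientGroup.eq_one_iff x).mp this

theorem Involves.refl (G : Type) [Group G] : Involves G G :=
  ⟨⊤, (⊤ : Subgroup G).subtype, fun g => ⟨⟨g, Subgroup.mem_top g⟩, rfl⟩⟩

/-- along an injective homomorphism -/
theorem Involves.of_injective {G H S : Type} [Group G] [Group H] [Group S] (i : G →* H)
    (hi : Function.Injective i) (h : Involves G S) : Involves H S := by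
  obtain ⟨A, f, hf⟩ := h
  refine ⟨A.map i, f.comp (A.equivMapOfInjective i hi).symm.toMonoidHom, ?_⟩
  exact hf.comp (A.equivMapOfInjective i hi).symm.surjective

/-- a subgroup of a subgroup -/
theorem Involves.of_le {H S : Type} [Group H] [Group S] {A B : Subgroup H} (hAB : A ≤ B)
    (h : Involves A S) : Involves B S :=
  h.of_injective (Subgroup.inclusion hAB) (Subgroup.inclusion_injective hAB)

theorem Involves.of_subgroup {H S : Type} [Group H] [Group S] {A : Subgroup H}
    (h : Involves A S) : Involves H S :=
  h.of_injective A.subtype A.subtype_injective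

/-- along a surjective homomorphism -/
theorem Involves.of_surjective {G H S : Type} [Group G] [Group H] [Group S] (p : G →* H)
    (hp : Function.Surjective p) (h : Involves H S) : Involves G S := by
  obtain ⟨A, f, hf⟩ := h
  refine ⟨A.comap p, f.comp ((p.comp (A.comap p).subtype).codRestrict A fun x => x.2), ?_⟩
  intro s
  obtain ⟨a, rfl⟩ := hf s
  obtain ⟨g, hg⟩ := hp a
  refine ⟨⟨g, by simp [hg]⟩, ?_⟩
  simp only [MonoidHom.comp_apply]
  congr 1
  exact Subtype.ext hg

theorem Involves.of_equiv {G H S : Type} [Group G] [Group H] [Group S] (e : G ≃* H)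
    (h : Involves G S) : Involves H S :=
  h.of_injective e.toMonoidHom e.injective

theorem Involves.trans_equiv {G S T : Type} [Group G] [Group S] [Group T] (e : S ≃* T)
    (h : Involves G S) : Involves G T := by
  obtain ⟨A, f, hf⟩ := h
  exact ⟨A, e.toMonoidHom.comp f, e.surjective.comp hf⟩

/-- A nonabelian simple group involved in a central extension of `H` is involved in `H`. -/
theorem Involves.of_central {G H S : Type} [Group G] [Group H] [Group S] (hS : NonabSimple S)
    (p : G →* H) (hp : p.ker ≤ Subgroup.center G) (h : Involves G S) : Involves H S := by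
  obtain ⟨A, f, hf⟩ := h
  obtain ⟨hs, a, b, hab⟩ := hS
  have hker : (p.comp A.subtype).ker ≤ f.ker := by
    -- the image of the kernel is a normal abelian subgroup of `S`
    have hc : (p.comp A.subtype).ker.map f ≤ Subgroup.center S := by
      rintro _ ⟨x, hx, rfl⟩
      rw [Subgroup.mem_center_iff]
      intro s
      obtain ⟨y, rfl⟩ := hf s
      have hx' : (x : G) ∈ Subgroup.center G := hp hx
      rw [← map_mul, ← map_mul]
      congr 1
      exact Subtype.ext (Subgroup.mem_center_iff.1 hx' y)
    have hbot : Subgroup.center S = ⊥ := by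
      rcases hs.eq_bot_or_eq_top_of_normal (Subgroup.center S) inferInstance with h | h
      · exact h
      · exfalso
        apply hab
        have : b ∈ Subgroup.center S := by rw [h]; exact Subgroup.mem_top b
        exact Subgroup.mem_center_iff.1 this a
    intro x hx
    have : f x ∈ Subgroup.center S := hc ⟨x, hx, rfl⟩
    rw [hbot, Subgroup.mem_bot] at this
    exact this
  let q : A →* (p.comp A.subtype).range := (p.comp A.subtype).rangeRestrict
  have hq : Function.Surjective q := (p.comp A.subtype).rangeRestrict_surjective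
  have hqk : q.ker ≤ f.ker := by
    rw [MonoidHom.ker_rangeRestrict]; exact hker
  refine ⟨(p.comp A.subtype).range, q.liftOfSurjective hq ⟨f, hqk⟩, ?_⟩
  intro s
  obtain ⟨y, rfl⟩ := hf s
  exact ⟨q y, MonoidHom.liftOfRightInverse_comp_apply q _ _ ⟨f, hqk⟩ y⟩

end Pool.Agent.PP
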