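import Pool.Agent.Helper36_PP.StmtsCY
import Pool.Agent.Helper20_PP.Nls

/-!
SPL: homomorphisms between representations with a common simple constituent of the fixed points.
-/

open scoped BigOperators

set_option linter.unusedSectionVars false

noncomputable section

namespace Pool.Agent.PP.H36

open Pool.Agent.Helper51_AWC Pool.Agent.Helper79_WRA Pool.Agent.PP

variable {F : Type} [Field F]

/-- `(t - 1)^(q - 1) = 1 + t + ... + t^(q-1)` in characteristic `ℓ` -/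
theorem pow_geom (ℓ : ℕ) [Fact ℓ.Prime] [CharP F ℓ] (a : ℕ) :
    ((Polynomial.X - 1 : Polynomial F)) ^ (ℓ ^ a - 1) =
      ∑ i ∈ Finset.range (ℓ ^ a), (Polynomial.X : Polynomial F) ^ i := by
  have hne : (Polynomial.X - 1 : Polynomial F) ≠ 0 := by
    have := Polynomial.X_sub_C_ne_zero (1 : F)
    simpa using this
  apply mul_right_cancel₀ hne
  have h1 : ℓ ^ a - 1 + 1 = ℓ ^ a :=
    Nat.sub_add_cancel (Nat.one_le_iff_ne_zero.mpr (pow_ne_zero _ (Fact.out : ℓ.Prime).ne_zero))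
  have : CharP (Polynomial F) ℓ := inferInstance
  rw [← pow_succ, h1, geom_sum_mul, sub_pow_char_pow, one_pow]

section core

variable {ℓ : ℕ} [Fact ℓ.Prime] {K : Type} [Group K] [Finite K] {P : Subgroup K}
  {V V' : Type} [AddCommGroup V] [Module F V] [AddCommGroup V'] [Module F V']

theorem nrm_eq [CharP F ℓ] (hP : IsPGroup ℓ P) (y : K) (hy : Subgroup.zpowers y = P)
    (ρ : Representation F K V) :
    (∑ᶠ p : P, ρ p) = (ρ y - 1) ^ (Nat.card P - 1) := by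
  classical
  subst hy
  obtain ⟨a, ha⟩ := (IsPGroup.iff_card.mp hP)
  have hq : orderOf y = ℓ ^ a := by rw [← Nat.card_zpowers, ha]
  have h := congrArg (Polynomial.aeval (ρ y)) (pow_geom (F := F) ℓ a)
  rw [map_pow, map_sub, Polynomial.aeval_X, map_one, map_sum] at h
  rw [ha, h]
  have := Fintype.ofFinite (Subgroup.zpowers y)
  rw [finsum_eq_sum_of_fintype]
  simp only [map_pow, Polynomial.aeval_X]
  rw [← hq]
  symm
  rw [← Fin.sum_univ_eq_sum_range (fun i => ρ y ^ i)]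
  apply Fintype.sum_equiv (finEquivZPowers (isOfFinOrder_of_finite y))
  intro i
  rw [finEquivZPowers_apply, map_pow]

/-- the powers of `y - 1` and conjugation -/
theorem range_stable (y n : K) (a : ℕ) (h : n * y * n⁻¹ = y ^ a) (ρ : Representation F K V)
    (k : ℕ) (v : V) (hv : v ∈ LinearMap.range ((ρ y - 1) ^ k)) :
    ρ n v ∈ LinearMap.range ((ρ y - 1) ^ k) := by
  obtain ⟨u, rfl⟩ := hv
  have e1 : ρ n * (ρ y - 1) = (ρ y - 1) * (∑ i ∈ Finset.range a, ρ y ^ i) * ρ n := by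
    have e2 : (ρ y - 1) * (∑ i ∈ Finset.range a, ρ y ^ i) = ρ y ^ a - 1 := by
      rw [mul_geom_sum]
    rw [e2, mul_sub, sub_mul, mul_one, one_mul, ← map_mul, ← map_pow, ← map_mul, ← h]
    simp [mul_assoc]
  have hc : Commute (ρ y - 1) (∑ i ∈ Finset.range a, ρ y ^ i) := by
    apply Commute.sum_right
    intro i _
    exact ((Commute.refl (ρ y)).sub_left (Commute.one_left _)).pow_right i
  have e3 : ∀ k : ℕ, ρ n * (ρ y - 1) ^ k =
      (ρ y - 1) ^ k * ((∑ i ∈ Finset.range a, ρ y ^ i) ^ k * ρ n) := by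
    intro k
    induction k with
    | zero => simp
    | succ k ih =>
      have h1 : (∑ i ∈ Finset.range a, ρ y ^ i) ^ k * (ρ y - 1) =
          (ρ y - 1) * (∑ i ∈ Finset.range a, ρ y ^ i) ^ k := ((hc.pow_right k).eq).symm
      calc ρ n * (ρ y - 1) ^ (k + 1) = ρ n * (ρ y - 1) ^ k * (ρ y - 1) := by
            rw [pow_succ, mul_assoc]
        _ = (ρ y - 1) ^ k * (∑ i ∈ Finset.range a, ρ y ^ i) ^ k * (ρ n * (ρ y - 1)) := by
            rw [ih]; simp only [mul_assoc]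
        _ = (ρ y - 1) ^ k * ((∑ i ∈ Finset.range a, ρ y ^ i) ^ k * (ρ y - 1)) *
            (∑ i ∈ Finset.range a, ρ y ^ i) * ρ n := by
            rw [e1]; simp only [mul_assoc]
        _ = (ρ y - 1) ^ (k + 1) * ((∑ i ∈ Finset.range a, ρ y ^ i) ^ (k + 1) * ρ n) := by
            rw [h1, pow_succ, pow_succ]; simp only [mul_assoc]
  exact ⟨((∑ i ∈ Finset.range a, ρ y ^ i) ^ k * ρ n) u, by
    have := LinearMap.congr_fun (e3 k) u
    exact this.symm⟩

/-- an invariant subspace of an irreducible representation -/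
theorem irr_sub {m : ℕ} {κ : K →* Matrix (Fin m) (Fin m) F} (hκ : IsIrr κ)
    (U : Submodule F (Fin m → F)) (hU : ∀ n : K, ∀ w ∈ U, (κ n).mulVec w ∈ U) (hne : U ≠ ⊥) :
    U = ⊤ := by
  classical
  obtain ⟨u, hu, hu0⟩ := Submodule.exists_mem_ne_zero_of_ne_bot hne
  have hall : ∀ A : Matrix (Fin m) (Fin m) F, A.mulVec u ∈ U := by
    intro A
    have hA : A ∈ Submodule.span F (Set.range κ) := by
      rw [hκ.2]
      exact Submodule.mem_top
    induction hA using Submodule.span_induction with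
    | mem x hx =>
      obtain ⟨n, rfl⟩ := hx
      exact hU n u hu
    | zero => rw [Matrix.zero_mulVec]; exact U.zero_mem
    | add x z _ _ hx hz => rw [Matrix.add_mulVec]; exact U.add_mem hx hz
    | smul c x _ hx => rw [Matrix.smul_mulVec]; exact U.smul_mem c hx
  rw [eq_top_iff]
  intro w _
  obtain ⟨j, hj⟩ := Function.ne_iff.mp hu0
  have hj' : u j ≠ 0 := hj
  have := hall (fun i k => if k = j then w i * (u j)⁻¹ else 0)
  have e : Matrix.mulVec (fun i k => if k = j then w i * (u j)⁻¹ else 0) u = w := by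
    funext i
    simp only [Matrix.mulVec, dotProduct, ite_mul, zero_mul, Finset.sum_ite_eq', Finset.mem_univ,
      if_true]
    rw [mul_assoc, inv_mul_cancel₀ hj', mul_one]
  rwa [e] at this

/-- the level of a simple constituent of the fixed points -/
theorem lev [P.Normal] (y : K) (hy : Subgroup.zpowers y = P) (ρ : Representation F K V)
    {m : ℕ} {κ : K →* Matrix (Fin m) (Fin m) F} (hκ : IsIrr κ) (ι : (Fin m → F) →ₗ[F] V)
    (hι : ∀ (n : K) (w : Fin m → F), ι ((κ n).mulVec w) = ρ n (ι w)) (q : ℕ)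
    (hnt : ∃ w, ι w ∉ LinearMap.range ((ρ y - 1) ^ q)) :
    ∃ s : ℕ, LinearMap.range ι ≤ LinearMap.range ((ρ y - 1) ^ s) ∧
      ∀ w, ι w ∈ LinearMap.range ((ρ y - 1) ^ (s + 1)) → w = 0 := by
  classical
  have hex : ∃ k : ℕ, ∃ w, ι w ∉ LinearMap.range ((ρ y - 1) ^ k) := ⟨q, hnt⟩
  obtain ⟨s, hs⟩ : ∃ s, Nat.find hex = s + 1 := by
    apply Nat.exists_eq_succ_of_ne_zero
    intro h0
    obtain ⟨w, hw⟩ := Nat.find_spec hex
    rw [h0, pow_zero] at hw
    exact hw ⟨ι w, rfl⟩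
  refine ⟨s, ?_, ?_⟩
  · rintro _ ⟨w, rfl⟩
    by_contra hc
    exact Nat.find_min hex (m := s) (by rw [hs]; exact Nat.lt_succ_self s) ⟨w, hc⟩
  · by_contra hc
    push Not at hc
    obtain ⟨w, hw, hw0⟩ := hc
    have htop := irr_sub hκ ((LinearMap.range ((ρ y - 1) ^ (s + 1))).comap ι) (by
      intro n u hu
      rw [Submodule.mem_comap] at hu ⊢
      rw [hι]
      have hn : n * y * n⁻¹ ∈ P := (inferInstance : P.Normal).conj_mem y
        (hy ▸ Subgroup.mem_zpowers y) n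
      rw [← hy] at hn
      obtain ⟨a, ha⟩ := (isOfFinOrder_of_finite y).mem_powers_iff_mem_zpowers.mpr hn
      exact range_stable y n a ha.symm ρ (s + 1) _ hu) (by
      intro hbot
      have : w ∈ (LinearMap.range ((ρ y - 1) ^ (s + 1))).comap ι := hw
      rw [hbot] at this
      exact hw0 ((Submodule.mem_bot F).mp this))
    obtain ⟨u, hu⟩ := Nat.find_spec hex
    rw [hs] at hu
    have : u ∈ (LinearMap.range ((ρ y - 1) ^ (s + 1))).comap ι := by
      rw [htop]; exact Submodule.mem_top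
    exact hu this

/-- the homomorphism before averaging -/
theorem pre (D : V →ₗ[F] V) (D' : V' →ₗ[F] V') {m : ℕ} (ι : (Fin m → F) →ₗ[F] V)
    (ι' : (Fin m → F) →ₗ[F] V') (s : ℕ)
    (hD : ∀ w, D (ι w) = 0) (hD' : ∀ w, D' (ι' w) = 0)
    (h1 : ∀ w, ι w ∈ LinearMap.range (D ^ (s + 1)) → w = 0)
    (h2 : LinearMap.range ι' ≤ LinearMap.range (D' ^ s)) :
    ∃ g : V →ₗ[F] V', D' ∘ₗ g = g ∘ₗ D ∧ (∀ w, g (ι w) = ι' w) ∧
      ∀ v, D v = 0 → g v ∈ LinearMap.range ι' := by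
  obtain ⟨ψ, hψ⟩ := LinearMap.exists_leftInverse_of_injective
    ((LinearMap.range (D ^ (s + 1))).mkQ ∘ₗ ι) (by
      rw [LinearMap.ker_eq_bot']
      intro w hw
      rw [LinearMap.comp_apply, Submodule.mkQ_apply, Submodule.Quotient.mk_eq_zero] at hw
      exact h1 w hw)
  let φ : V →ₗ[F] (Fin m → F) := ψ ∘ₗ (LinearMap.range (D ^ (s + 1))).mkQ
  have hφι : ∀ w, φ (ι w) = w := fun w => LinearMap.congr_fun hψ w
  have hφD : φ ∘ₗ (D ^ (s + 1)) = 0 := by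
    apply LinearMap.ext
    intro v
    show ψ ((LinearMap.range (D ^ (s + 1))).mkQ ((D ^ (s + 1)) v)) = 0
    have h3 : (D ^ (s + 1)) v ∈ LinearMap.range (D ^ (s + 1)) := ⟨v, rfl⟩
    rw [Submodule.mkQ_apply, (Submodule.Quotient.mk_eq_zero _).mpr h3, map_zero]
  obtain ⟨τ, hτ⟩ := Module.projective_lifting_property (D' ^ s).rangeRestrict
    (LinearMap.codRestrict (LinearMap.range (D' ^ s)) ι' (fun w => h2 ⟨w, rfl⟩))
    (LinearMap.surjective_rangeRestrict _)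
  have hτ' : ∀ w, (D' ^ s) (τ w) = ι' w := fun w =>
    congrArg Subtype.val (LinearMap.congr_fun hτ w)
  have hτD : (D' ^ (s + 1)) ∘ₗ τ = 0 := by
    ext w
    show (D' ^ (s + 1)) (τ (Pi.single w 1)) = _
    rw [pow_succ']
    show D' ((D' ^ s) (τ _)) = _
    rw [hτ', hD']
    rfl
  let f : ℕ → (V →ₗ[F] V') := fun i => (D' ^ i) ∘ₗ τ ∘ₗ φ ∘ₗ (D ^ (s + 1 - i))
  let g : V →ₗ[F] V' := ∑ i ∈ Finset.range (s + 1), (D' ^ i) ∘ₗ τ ∘ₗ φ ∘ₗ (D ^ (s - i))
  have hg1 : D' ∘ₗ g = ∑ i ∈ Finset.range (s + 1), f (i + 1) := by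
    show D' ∘ₗ (∑ i ∈ Finset.range (s + 1), (D' ^ i) ∘ₗ τ ∘ₗ φ ∘ₗ (D ^ (s - i))) = _
    ext v
    simp only [LinearMap.comp_apply, LinearMap.sum_apply, map_sum, f]
    apply Finset.sum_congr rfl
    intro i _
    rw [pow_succ', Nat.succ_sub_succ]
    rfl
  have hg2 : g ∘ₗ D = ∑ i ∈ Finset.range (s + 1), f i := by
    show (∑ i ∈ Finset.range (s + 1), (D' ^ i) ∘ₗ τ ∘ₗ φ ∘ₗ (D ^ (s - i))) ∘ₗ D = _
    ext v
    simp only [LinearMap.comp_apply, LinearMap.sum_apply, f]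
    apply Finset.sum_congr rfl
    intro i hi
    rw [Nat.succ_sub (Nat.lt_succ_iff.mp (Finset.mem_range.mp hi)), pow_succ]
    rfl
  have hfix : ∀ v, D v = 0 → g v = ι' (φ v) := by
    intro v hv
    show (∑ i ∈ Finset.range (s + 1), (D' ^ i) ∘ₗ τ ∘ₗ φ ∘ₗ (D ^ (s - i))) v = _
    rw [LinearMap.sum_apply, Finset.sum_eq_single s]
    · rw [Nat.sub_self, pow_zero]
      show (D' ^ s) (τ (φ v)) = _
      rw [hτ']
    · intro i hi his
      have : i < s := lt_of_le_of_ne (Nat.lt_succ_iff.mp (Finset.mem_range.mp hi)) his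
      obtain ⟨j, hj⟩ : ∃ j, s - i = j + 1 :=
        Nat.exists_eq_succ_of_ne_zero (Nat.sub_ne_zero_of_lt this)
      rw [hj, pow_succ]
      show (D' ^ i) (τ (φ ((D ^ j) (D v)))) = 0
      rw [hv, map_zero, map_zero, map_zero, map_zero]
    · intro h
      exact absurd (Finset.self_mem_range_succ s) h
  refine ⟨g, ?_, ?_, ?_⟩
  · rw [hg1, hg2, Finset.sum_range_succ, Finset.sum_range_succ' f]
    have e1 : f (s + 1) = 0 := by
      show (D' ^ (s + 1)) ∘ₗ τ ∘ₗ φ ∘ₗ (D ^ (s + 1 - (s + 1))) = 0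
      rw [← LinearMap.comp_assoc, hτD, LinearMap.zero_comp]
    have e2 : f 0 = 0 := by
      show (D' ^ 0) ∘ₗ τ ∘ₗ φ ∘ₗ (D ^ (s + 1 - 0)) = 0
      rw [Nat.sub_zero, hφD, LinearMap.comp_zero, LinearMap.comp_zero]
    rw [e1, e2]
  · intro w
    rw [hfix _ (hD w), hφι]
  · intro v hv
    rw [hfix v hv]
    exact ⟨_, rfl⟩

/-- averaging -/
theorem core [CharP F ℓ] [P.Normal] (hPi : ¬ ℓ ∣ P.index) (y : K) (hy : Subgroup.zpowers y = P)
    (ρ : Representation F K V) (ρ' : Representation F K V')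
    {m : ℕ} {κ : K →* Matrix (Fin m) (Fin m) F} (hκP : ∀ x ∈ P, κ x = 1)
    (ι : (Fin m → F) →ₗ[F] V) (ι' : (Fin m → F) →ₗ[F] V')
    (hι : ∀ (n : K) (w : Fin m → F), ι ((κ n).mulVec w) = ρ n (ι w))
    (hι' : ∀ (n : K) (w : Fin m → F), ι' ((κ n).mulVec w) = ρ' n (ι' w)) (s : ℕ)
    (h1 : ∀ w, ι w ∈ LinearMap.range ((ρ y - 1) ^ (s + 1)) → w = 0)
    (h2 : LinearMap.range ι' ≤ LinearMap.range ((ρ' y - 1) ^ s)) :
    ∃ g : V →ₗ[F] V', (∀ n v, g (ρ n v) = ρ' n (g v)) ∧ (∀ w, g (ι w) = ι' w) ∧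
      ∀ v, (∀ x ∈ P, ρ x v = v) → g v ∈ LinearMap.range ι' := by
  classical
  have hyP : y ∈ P := hy ▸ Subgroup.mem_zpowers y
  obtain ⟨g₀, hg1, hg2, hg3⟩ := pre (ρ y - 1) (ρ' y - 1) ι ι' s (by
      intro w
      rw [LinearMap.sub_apply, Module.End.one_apply, ← hι, hκP y hyP, Matrix.one_mulVec, sub_self])
    (by
      intro w
      rw [LinearMap.sub_apply, Module.End.one_apply, ← hι', hκP y hyP, Matrix.one_mulVec, sub_self])
    h1 h2
  have hgy : ρ' y ∘ₗ g₀ = g₀ ∘ₗ ρ y := by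
    rw [LinearMap.sub_comp, LinearMap.comp_sub] at hg1
    have e1 : (1 : V' →ₗ[F] V') ∘ₗ g₀ = g₀ := LinearMap.id_comp g₀
    have e2 : g₀ ∘ₗ (1 : V →ₗ[F] V) = g₀ := LinearMap.comp_id g₀
    rw [e1, e2] at hg1
    exact sub_left_injective hg1
  -- the elements of `P`
  have hgP : ∀ x ∈ P, ρ' x ∘ₗ g₀ = g₀ ∘ₗ ρ x := by
    intro x hx
    rw [← hy] at hx
    obtain ⟨j, rfl⟩ := (isOfFinOrder_of_finite y).mem_powers_iff_mem_zpowers.mpr hx
    show ρ' (y ^ j) ∘ₗ g₀ = g₀ ∘ₗ ρ (y ^ j)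
    induction j with
    | zero => rw [pow_zero, map_one, map_one]; rfl
    | succ j ih =>
      have ih' := ih (Subgroup.pow_mem _ (Subgroup.mem_zpowers y) j)
      rw [pow_succ, map_mul, map_mul]
      show ρ' (y ^ j) ∘ₗ (ρ' y ∘ₗ g₀) = (g₀ ∘ₗ ρ (y ^ j)) ∘ₗ ρ y
      rw [hgy, ← ih']
      rfl
  let A : K → (V →ₗ[F] V') := fun k => ρ' k ∘ₗ g₀ ∘ₗ ρ k⁻¹
  have hA : ∀ k, ∀ x ∈ P, A (k * x) = A k := by
    intro k x hx
    show ρ' (k * x) ∘ₗ g₀ ∘ₗ ρ (k * x)⁻¹ = ρ' k ∘ₗ g₀ ∘ₗ ρ k⁻¹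
    rw [mul_inv_rev, map_mul, map_mul]
    have e1 : (ρ' k * ρ' x) ∘ₗ g₀ ∘ₗ (ρ x⁻¹ * ρ k⁻¹) =
        ρ' k ∘ₗ ((ρ' x ∘ₗ g₀) ∘ₗ ρ x⁻¹) ∘ₗ ρ k⁻¹ := rfl
    have e2 : (ρ' x ∘ₗ g₀) ∘ₗ ρ x⁻¹ = g₀ := by
      rw [hgP x hx]
      have : (g₀ ∘ₗ ρ x) ∘ₗ ρ x⁻¹ = g₀ ∘ₗ (ρ x * ρ x⁻¹) := rfl
      rw [this, ← map_mul, mul_inv_cancel, map_one]
      rfl
    rw [e1, e2]
  have hfin := Fintype.ofFinite (K ⧸ P)
  let B : V →ₗ[F] V' := ∑ c : K ⧸ P, A c.out
  have hB : ∀ n v, B (ρ n v) = ρ' n (B v) := by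
    intro n v
    have e1 : ∀ c : K ⧸ P, A (n • c).out = A (n * c.out) := by
      intro c
      obtain ⟨x, hx⟩ := QuotientGroup.mk_out_eq_mul P (n * c.out)
      have e3 : (n • c) = ((n * c.out : K) : K ⧸ P) := by
        conv_lhs => rw [← QuotientGroup.out_eq' c]
        rfl
      rw [e3, hx, hA _ _ x.2]
    show (∑ c : K ⧸ P, A c.out) (ρ n v) = ρ' n ((∑ c : K ⧸ P, A c.out) v)
    rw [LinearMap.sum_apply, LinearMap.sum_apply, map_sum,
      ← Equiv.sum_comp (MulAction.toPerm n) (fun c : K ⧸ P => (A c.out) (ρ n v))]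
    apply Finset.sum_congr rfl
    intro c _
    show (A (n • c).out) (ρ n v) = _
    rw [e1]
    show ρ' (n * c.out) (g₀ (ρ (n * c.out)⁻¹ (ρ n v))) = ρ' n (ρ' c.out (g₀ (ρ (c.out)⁻¹ v)))
    have e4 : ρ (n * c.out)⁻¹ (ρ n v) = ρ (c.out)⁻¹ v := by
      rw [← Module.End.mul_apply, ← map_mul, mul_inv_rev, inv_mul_cancel_right]
    rw [e4, map_mul]
    rfl
  have hBι : ∀ w, B (ι w) = (P.index : F) • ι' w := by
    intro w
    show (∑ c : K ⧸ P, A c.out) (ι w) = _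
    rw [LinearMap.sum_apply]
    have e1 : ∀ c : K ⧸ P, (A c.out) (ι w) = ι' w := by
      intro c
      show ρ' c.out (g₀ (ρ (c.out)⁻¹ (ι w))) = ι' w
      rw [← hι, hg2, ← hι', Matrix.mulVec_mulVec, ← map_mul, mul_inv_cancel, map_one,
        Matrix.one_mulVec]
    rw [Finset.sum_congr rfl (fun c _ => e1 c), Finset.sum_const, Finset.card_univ,
      ← Nat.card_eq_fintype_card, Nat.cast_smul_eq_nsmul]
    rfl
  have hBfix : ∀ v, (∀ x ∈ P, ρ x v = v) → B v ∈ LinearMap.range ι' := by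
    intro v hv
    show (∑ c : K ⧸ P, A c.out) v ∈ _
    rw [LinearMap.sum_apply]
    apply Submodule.sum_mem
    intro c _
    obtain ⟨w, hw⟩ := hg3 (ρ (c.out)⁻¹ v) (by
      rw [LinearMap.sub_apply, Module.End.one_apply, sub_eq_zero]
      have e1 : c.out * y * (c.out)⁻¹ ∈ P := (inferInstance : P.Normal).conj_mem y hyP c.out
      calc ρ y (ρ (c.out)⁻¹ v) = ρ (c.out)⁻¹ (ρ (c.out * y * (c.out)⁻¹) v) := by
            rw [← Module.End.mul_apply, ← Module.End.mul_apply, ← map_mul, ← map_mul]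
            congr 2
            group
        _ = ρ (c.out)⁻¹ v := by rw [hv _ e1])
    refine ⟨(κ c.out).mulVec w, ?_⟩
    rw [hι', hw]
    rfl
  have hidx : (P.index : F) ≠ 0 := by
    rw [Ne, CharP.cast_eq_zero_iff F ℓ]
    exact hPi
  refine ⟨(P.index : F)⁻¹ • B, ?_, ?_, ?_⟩
  · intro n v
    rw [LinearMap.smul_apply, LinearMap.smul_apply, hB, map_smul]
  · intro w
    rw [LinearMap.smul_apply, hBι, smul_smul, inv_mul_cancel₀ hidx, one_smul]
  · intro v hv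
    rw [LinearMap.smul_apply]
    exact Submodule.smul_mem _ _ (hBfix v hv)

end core

theorem spl : SplStmt := by
  intro ℓ _ F _ hF G _ _ P N hP hcyc hPN hNn hidx V V' _ _ _ _ _ _ ρ ρ' m κ ι ι' hκ he he'
  have hch : CharP F ℓ := hF.char
  classical
  -- the subgroup `P` of `N`
  have hPn : (P.subgroupOf N).Normal := by
    constructor
    intro x hx n
    rw [Subgroup.mem_subgroupOf] at hx ⊢
    have := (Subgroup.mem_normalizer_iff.mp (hNn n.2) x).mp hx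
    exact this
  have hP' : IsPGroup ℓ (P.subgroupOf N) := by
    intro x
    obtain ⟨k, hk⟩ := hP ⟨((x : N) : G), Subgroup.mem_subgroupOf.mp x.2⟩
    refine ⟨k, ?_⟩
    apply Subtype.ext
    apply Subtype.ext
    have h3 : (((x : N) : G)) ^ ℓ ^ k = 1 := congrArg Subtype.val hk
    exact h3
  have hidx' : ¬ ℓ ∣ (P.subgroupOf N).index := hidx
  -- the generator
  obtain ⟨y, hy⟩ := hcyc.exists_generator
  let y' : N := ⟨y, hPN y.2⟩
  have hy' : Subgroup.zpowers y' = P.subgroupOf N := by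
    ext x
    rw [Subgroup.mem_zpowers_iff, Subgroup.mem_subgroupOf]
    constructor
    · rintro ⟨k, rfl⟩
      exact P.zpow_mem y.2 k
    · intro hx
      obtain ⟨k, hk⟩ := Subgroup.mem_zpowers_iff.mp (hy ⟨x, hx⟩)
      refine ⟨k, ?_⟩
      apply Subtype.ext
      have h3 : (y : G) ^ k = x := congrArg Subtype.val hk
      exact h3
  have hκP : ∀ x ∈ P.subgroupOf N, κ x = 1 := fun x hx =>
    Pool.Agent.PP.H20.nls_triv hF.prime hF.char (P.subgroupOf N) hPn hP' κ hκ x hx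
  -- the norm
  have hnrm : ∀ (U : Type) [AddCommGroup U] [Module F U] (σ : Representation F G U),
      nrmV σ P = LinearMap.range (((σ.comp N.subtype) y' - 1) ^ (Nat.card (P.subgroupOf N) - 1)) := by
    intro U _ _ σ
    rw [← nrm_eq hP' y' hy' (σ.comp N.subtype)]
    unfold nrmV
    congr 1
    exact (finsum_comp_equiv (Subgroup.subgroupOfEquivOfLe hPN).toEquiv
      (f := fun p : P => σ p)).symm
  obtain ⟨s, hs1, hs2⟩ := lev y' hy' (ρ.comp N.subtype) hκ ι he.int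
    (Nat.card (P.subgroupOf N) - 1) (by rw [← hnrm]; exact he.nt)
  obtain ⟨s', hs1', hs2'⟩ := lev y' hy' (ρ'.comp N.subtype) hκ ι' he'.int
    (Nat.card (P.subgroupOf N) - 1) (by rw [← hnrm]; exact he'.nt)
  have hmono : ∀ (U : Type) [AddCommGroup U] [Module F U] (D : U →ₗ[F] U) (a b : ℕ), a ≤ b →
      LinearMap.range (D ^ b) ≤ LinearMap.range (D ^ a) := by
    intro U _ _ D a b hab
    rintro _ ⟨u, rfl⟩
    obtain ⟨c, rfl⟩ := Nat.exists_eq_add_of_le hab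
    exact ⟨(D ^ c) u, by rw [pow_add]; rfl⟩
  rcases le_total s s' with h | h
  · left
    obtain ⟨g, hg1, hg2, hg3⟩ := core hidx' y' hy' (ρ.comp N.subtype) (ρ'.comp N.subtype) hκP ι ι'
      he.int he'.int s hs2 (hs1'.trans (hmono _ _ _ _ h))
    refine ⟨g, ?_, hg2, ?_⟩
    · intro n hn v
      exact hg1 ⟨n, hn⟩ v
    · intro v hv
      exact hg3 v (fun x hx => hv x (Subgroup.mem_subgroupOf.mp hx))
  · right
    obtain ⟨g, hg1, hg2, hg3⟩ := core hidx' y' hy' (ρ'.comp N.subtype) (ρ.comp N.subtype) hκP ι' ι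
      he'.int he.int s' hs2' (hs1.trans (hmono _ _ _ _ h))
    refine ⟨g, ?_, hg2, ?_⟩
    · intro n hn v
      exact hg1 ⟨n, hn⟩ v
    · intro v hv
      exact hg3 v (fun x hx => hv x (Subgroup.mem_subgroupOf.mp hx))

end Pool.Agent.PP.H36
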