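import Mathlib

/-!
# Two classes of finite groups: groups of rank one in characteristic `ℓ` and groups with a cyclic
Sylow `ℓ`-subgroup that is a trivial intersection set
-/

noncomputable section

namespace Pool.Agent.PP

/-- `S` has a split BN-pair of rank one of characteristic `ℓ` with a cyclic torus: it acts
faithfully on a set `Ω`, some elements exchange the two points `o ≠ p`, the stabiliser of `o`
normalises an `ℓ`-subgroup `U` that is regular on the points different from `o`, and the stabiliser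
of `o` and `p` is cyclic of order prime to `ℓ`. -/
def RankOne (ℓ : ℕ) (S : Type) [Group S] : Prop :=
  ∃ (Ω : Type) (_ : Finite Ω) (_ : MulAction S Ω) (o p : Ω) (U : Subgroup S),
    (∀ s : S, (∀ x : Ω, s • x = x) → s = 1) ∧ o ≠ p ∧ (∃ s : S, s • o = p ∧ s • p = o) ∧
    IsPGroup ℓ U ∧ (∀ u ∈ U, u • o = o) ∧ (∀ u ∈ U, u • p = p → u = 1) ∧
    (∀ x : Ω, x ≠ o → ∃ u ∈ U, u • p = x) ∧ (∀ s : S, s • o = o → ∀ u ∈ U, s * u * s⁻¹ ∈ U) ∧
    IsCyclic (MulAction.stabilizer S o ⊓ MulAction.stabilizer S p : Subgroup S) ∧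
    ¬ ℓ ∣ Nat.card (MulAction.stabilizer S o ⊓ MulAction.stabilizer S p : Subgroup S)

/-- `P` is a nontrivial Sylow `ℓ`-subgroup which is a trivial intersection set. -/
structure TiS (ℓ : ℕ) {G : Type} [Group G] (P : Subgroup G) : Prop where
  pgrp : IsPGroup ℓ P
  sylow : ¬ ℓ ∣ P.index
  ne : P ≠ ⊥
  ti : ∀ g : G, g ∉ Subgroup.normalizer (P : Set G) → ∀ x ∈ P, g * x * g⁻¹ ∈ P → x = 1

/-- `S` has a cyclic Sylow `ℓ`-subgroup `P ≠ 1` which is a trivial intersection set. -/
def CyTI (ℓ : ℕ) (S : Type) [Group S] : Prop := ∃ P : Subgroup S, TiS ℓ P ∧ IsCyclic P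

theorem RankOne.equiv {ℓ : ℕ} {S T : Type} [Group S] [Group T] (e : S ≃* T) (h : RankOne ℓ T) :
    RankOne ℓ S := by
  obtain ⟨Ω, hfin, act, o, p, U, h1, h2, ⟨t, ht1, ht2⟩, h4, h5, h6, h7, h8, h9, h10⟩ := h
  let _ : MulAction S Ω := MulAction.compHom Ω (e : S →* T)
  have hsm : ∀ (s : S) (x : Ω), s • x = e s • x := fun _ _ => rfl
  have hst : (MulAction.stabilizer S o ⊓ MulAction.stabilizer S p : Subgroup S) =
      (MulAction.stabilizer T o ⊓ MulAction.stabilizer T p : Subgroup T).comap (e : S →* T) := by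
    ext s
    rfl
  have hi : Function.Injective ((e : S →* T).subgroupComap
      (MulAction.stabilizer T o ⊓ MulAction.stabilizer T p : Subgroup T)) := by
    intro a b hab
    apply Subtype.ext
    apply e.injective
    exact congrArg Subtype.val hab
  refine ⟨Ω, hfin, inferInstance, o, p, U.comap (e : S →* T), ?_, h2, ?_, ?_, ?_, ?_, ?_, ?_, ?_, ?_⟩
  · intro s hs
    have := h1 (e s) (fun x => hs x)
    rw [← map_one e] at this
    exact e.injective this
  · refine ⟨e.symm t, ?_, ?_⟩
    · rw [hsm, e.apply_symm_apply]; exact ht1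
    · rw [hsm, e.apply_symm_apply]; exact ht2
  · exact h4.comap_of_injective (e : S →* T) e.injective
  · intro u hu
    exact h5 (e u) hu
  · intro u hu hp
    have := h6 (e u) hu hp
    rw [← map_one e] at this
    exact e.injective this
  · intro x hx
    obtain ⟨u, hu, hux⟩ := h7 x hx
    refine ⟨e.symm u, ?_, ?_⟩
    · show e (e.symm u) ∈ U
      rw [e.apply_symm_apply]; exact hu
    · rw [hsm, e.apply_symm_apply]; exact hux
  · intro s hs u hu
    show e (s * u * s⁻¹) ∈ U
    rw [map_mul, map_mul, map_inv]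
    exact h8 (e s) hs (e u) hu
  · rw [hst]
    exact isCyclic_of_injective _ hi
  · rw [hst, Subgroup.comap_equiv_eq_map_symm]
    rw [Nat.card_congr ((MulAction.stabilizer T o ⊓ MulAction.stabilizer T p :
      Subgroup T).equivMapOfInjective _ e.symm.injective).toEquiv.symm]
    exact h10

end Pool.Agent.PP
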