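import Pool.Agent.Helper46_PP.StmtsTop
import Pool.Agent.Helper36_PP.Classes

/-!
# Squad PP, part CY: groups with a cyclic TI Sylow `ℓ`-subgroup

Text: `AWC_CY.md`.  `P` is a Sylow `ℓ`-subgroup of `G` with `P ∩ P^g = 1` for `g ∉ N = N_G(P)`.
For a representation `V` of `G` we consider the fixed points `V^P` and the image `(∑ P) V` of the
norm.
-/

open scoped BigOperators

noncomputable section

namespace Pool.Agent.PP

open Pool.Agent.Helper51_AWC Pool.Agent.Helper79_WRA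

section defs

variable {F : Type} [Field F] {G : Type} [Group G] {V V' : Type} [AddCommGroup V] [Module F V]
  [AddCommGroup V'] [Module F V']

/-- the fixed points of `P` -/
def fixV (ρ : Representation F G V) (P : Subgroup G) : Submodule F V where
  carrier := {v | ∀ p ∈ P, ρ p v = v}
  add_mem' := by
    intro a b ha hb p hp
    rw [map_add, ha p hp, hb p hp]
  zero_mem' := fun p _ => map_zero _
  smul_mem' := by
    intro c a ha p hp
    rw [map_smul, ha p hp]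

/-- the image of the norm `∑_{p ∈ P} p` -/
def nrmV (ρ : Representation F G V) (P : Subgroup G) : Submodule F V :=
  LinearMap.range (∑ᶠ p : P, ρ p)

/-- the trace `∑_{p ∈ P} p φ p⁻¹` of a linear map -/
def trP (ρ : Representation F G V) (ρ' : Representation F G V') (P : Subgroup G)
    (φ : V →ₗ[F] V') : V →ₗ[F] V' := ∑ᶠ p : P, ρ' p ∘ₗ φ ∘ₗ ρ (p : G)⁻¹

/-- `f` commutes with the elements of `N` -/
def HomOn (N : Subgroup G) (ρ : Representation F G V) (ρ' : Representation F G V')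
    (f : V →ₗ[F] V') : Prop := ∀ n ∈ N, ∀ v, f (ρ n v) = ρ' n (f v)

/-- the representation on column vectors -/
def mrep {n : ℕ} (σ : G →* Matrix (Fin n) (Fin n) F) : Representation F G (Fin n → F) :=
  (Matrix.toLinAlgEquiv' : Matrix (Fin n) (Fin n) F ≃ₐ[F] _).toAlgHom.toRingHom.toMonoidHom.comp σ

/-- `ι` embeds the representation `κ` of `N` into `V`, and its image is not contained in the image
of the norm of `P`. -/
structure EmbN (P N : Subgroup G) {m : ℕ} (κ : N →* Matrix (Fin m) (Fin m) F)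
    (ρ : Representation F G V) (ι : (Fin m → F) →ₗ[F] V) : Prop where
  int : ∀ (n : N) (w : Fin m → F), ι ((κ n).mulVec w) = ρ n (ι w)
  nt : ∃ w, ι w ∉ nrmV ρ P

end defs

/-- TIC: the chains of a group with a TI Sylow subgroup. -/
def TicStmt : Prop := ∀ (ℓ : ℕ) [Fact ℓ.Prime] (F : Type) [Field F] (G : Type) [Group G] [Finite G]
  (P : Subgroup G), TiS ℓ P → opCore ℓ G = ⊥ → ∀ e : G → F, IsCl e →
  YY ℓ ⊤ e = (Nat.card G : ℤ) * ((lnum (⊤ : Subgroup G) e : ℤ) -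
    (lnum (Subgroup.normalizer (P : Set G)) e : ℤ))

/-- MAC: homomorphisms for `N_G(P)` extend to `G` modulo traces. -/
def MacStmt : Prop := ∀ (ℓ : ℕ) [Fact ℓ.Prime] (F : Type) [Field F] (G : Type) [Group G] [Finite G]
  (P : Subgroup G), TiS ℓ P → ∀ (V V' : Type) [AddCommGroup V] [Module F V] [AddCommGroup V']
  [Module F V'] (ρ : Representation F G V) (ρ' : Representation F G V') (f : V →ₗ[F] V'),
  HomOn (Subgroup.normalizer (P : Set G)) ρ ρ' f → ∃ φ : V →ₗ[F] V', HomOn ⊤ ρ ρ' (f + trP ρ ρ' P φ)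

/-- FRE: if `V^P = (∑ P) V` for a cyclic `ℓ`-group `P`, then the identity is a trace. -/
def FrcStmt : Prop := ∀ (ℓ : ℕ) [Fact ℓ.Prime] (F : Type) [Field F], CharP F ℓ → ∀ (G : Type)
  [Group G] [Finite G] (P : Subgroup G), IsPGroup ℓ P → IsCyclic P → ∀ (V : Type) [AddCommGroup V]
  [Module F V] [FiniteDimensional F V] (ρ : Representation F G V), fixV ρ P ≤ nrmV ρ P →
  ∃ φ : V →ₗ[F] V, trP ρ ρ P φ = LinearMap.id

/-- NPR: the irreducible representations in a positive idempotent are not projective. -/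
def NprStmt : Prop := ∀ (ℓ : ℕ) [Fact ℓ.Prime] (F : Type) [Field F], GoodF ℓ F → ∀ (G : Type)
  [Group G] [Finite G] (P : Subgroup G), IsPGroup ℓ P → ¬ ℓ ∣ P.index → ∀ e : G → F, IsIdem e →
  Pos ℓ e ⊤ → ∀ (n : ℕ) (σ : G →* Matrix (Fin n) (Fin n) F), IsIrr σ → ev σ e = 1 →
  ∀ φ : (Fin n → F) →ₗ[F] (Fin n → F), trP (mrep σ) (mrep σ) P φ ≠ LinearMap.id

/-- SPL: homomorphisms between representations of a group `N` with a cyclic normal Sylow
`ℓ`-subgroup `P`, whose fixed points have a common simple constituent outside the norm. -/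
def SplStmt : Prop := ∀ (ℓ : ℕ) [Fact ℓ.Prime] (F : Type) [Field F], GoodF ℓ F → ∀ (G : Type)
  [Group G] [Finite G] (P N : Subgroup G), IsPGroup ℓ P → IsCyclic P → P ≤ N →
  N ≤ Subgroup.normalizer (P : Set G) → ¬ ℓ ∣ P.relIndex N →
  ∀ (V V' : Type) [AddCommGroup V] [Module F V] [FiniteDimensional F V] [AddCommGroup V']
  [Module F V'] [FiniteDimensional F V'] (ρ : Representation F G V) (ρ' : Representation F G V')
  (m : ℕ) (κ : N →* Matrix (Fin m) (Fin m) F) (ι : (Fin m → F) →ₗ[F] V)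
  (ι' : (Fin m → F) →ₗ[F] V'), IsIrr κ → EmbN P N κ ρ ι → EmbN P N κ ρ' ι' →
  (∃ g : V →ₗ[F] V', HomOn N ρ ρ' g ∧ (∀ w, g (ι w) = ι' w) ∧
      ∀ v ∈ fixV ρ P, g v ∈ LinearMap.range ι') ∨
    ∃ g : V' →ₗ[F] V, HomOn N ρ' ρ g ∧ (∀ w, g (ι' w) = ι w) ∧
      ∀ v ∈ fixV ρ' P, g v ∈ LinearMap.range ι

/-- EXK: a constituent of the fixed points outside the norm. -/
def ExkStmt : Prop := ∀ (ℓ : ℕ) [Fact ℓ.Prime] (F : Type) [Field F], GoodF ℓ F → ∀ (G : Type)
  [Group G] [Finite G] (P N : Subgroup G), IsPGroup ℓ P → P ≤ N →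
  N ≤ Subgroup.normalizer (P : Set G) → ¬ ℓ ∣ P.relIndex N →
  ∀ (V : Type) [AddCommGroup V] [Module F V] [FiniteDimensional F V] (ρ : Representation F G V),
  ¬ fixV ρ P ≤ nrmV ρ P → ∃ (m : ℕ) (κ : N →* Matrix (Fin m) (Fin m) F) (ι : (Fin m → F) →ₗ[F] V),
    IsIrr κ ∧ EmbN P N κ ρ ι

/-- BRK: `V^P / (∑ P) V` is simple for a nonprojective irreducible representation `V`. -/
def BrkStmt : Prop := ∀ (ℓ : ℕ) [Fact ℓ.Prime] (F : Type) [Field F], GoodF ℓ F → ∀ (G : Type)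
  [Group G] [Finite G] (P : Subgroup G), TiS ℓ P → IsCyclic P →
  ∀ (n : ℕ) (σ : G →* Matrix (Fin n) (Fin n) F), IsIrr σ →
  ∀ (m : ℕ) (κ : Subgroup.normalizer (P : Set G) →* Matrix (Fin m) (Fin m) F)
  (ι : (Fin m → F) →ₗ[F] (Fin n → F)), IsIrr κ →
  EmbN P (Subgroup.normalizer (P : Set G)) κ (mrep σ) ι →
  fixV (mrep σ) P ≤ LinearMap.range ι ⊔ nrmV (mrep σ) P

/-- INJ: the nonprojective irreducible representations are determined by `V^P / (∑ P) V`. -/
def InjStmt : Prop := ∀ (ℓ : ℕ) [Fact ℓ.Prime] (F : Type) [Field F], GoodF ℓ F → ∀ (G : Type)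
  [Group G] [Finite G] (P : Subgroup G), TiS ℓ P → IsCyclic P →
  ∀ (n n' : ℕ) (σ : G →* Matrix (Fin n) (Fin n) F) (σ' : G →* Matrix (Fin n') (Fin n') F),
  IsIrr σ → IsIrr σ' →
  ∀ (m : ℕ) (κ : Subgroup.normalizer (P : Set G) →* Matrix (Fin m) (Fin m) F)
  (ι : (Fin m → F) →ₗ[F] (Fin n → F)) (ι' : (Fin m → F) →ₗ[F] (Fin n' → F)), IsIrr κ →
  EmbN P (Subgroup.normalizer (P : Set G)) κ (mrep σ) ι →
  EmbN P (Subgroup.normalizer (P : Set G)) κ (mrep σ') ι' → tr σ = tr σ'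

/-- SUR: every irreducible representation of `N_G(P)` occurs. -/
def SurStmt : Prop := ∀ (ℓ : ℕ) [Fact ℓ.Prime] (F : Type) [Field F], GoodF ℓ F → ∀ (G : Type)
  [Group G] [Finite G] (P : Subgroup G), TiS ℓ P →
  ∀ (m : ℕ) (κ : Subgroup.normalizer (P : Set G) →* Matrix (Fin m) (Fin m) F), IsIrr κ →
  ∃ (n : ℕ) (σ : G →* Matrix (Fin n) (Fin n) F) (ι : (Fin m → F) →ₗ[F] (Fin n → F)), IsIrr σ ∧
    EmbN P (Subgroup.normalizer (P : Set G)) κ (mrep σ) ι

/-- EBR: a class function acts on `V^P / (∑ P) V` as its image under the Brauer map. -/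
def EbrStmt : Prop := ∀ (ℓ : ℕ) [Fact ℓ.Prime] (F : Type) [Field F], GoodF ℓ F → ∀ (G : Type)
  [Group G] [Finite G] (P : Subgroup G), TiS ℓ P → IsCyclic P →
  ∀ (n : ℕ) (σ : G →* Matrix (Fin n) (Fin n) F), IsIrr σ →
  ∀ (m : ℕ) (κ : Subgroup.normalizer (P : Set G) →* Matrix (Fin m) (Fin m) F)
  (ι : (Fin m → F) →ₗ[F] (Fin n → F)), IsIrr κ →
  EmbN P (Subgroup.normalizer (P : Set G)) κ (mrep σ) ι → ∀ (a : G → F) (c : F), IsCl a →
  ev σ a = Matrix.scalar (Fin n) c →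
  ev κ (fun t : Subgroup.normalizer (P : Set G) => br P a t) = Matrix.scalar (Fin m) c

/-- CYN: the `ℓ`-numbers of `G` and of `N_G(P)` agree. -/
def CynStmt : Prop := ∀ (ℓ : ℕ) [Fact ℓ.Prime] (F : Type) [Field F], GoodF ℓ F → ∀ (G : Type)
  [Group G] [Finite G] (P : Subgroup G), TiS ℓ P → IsCyclic P → ∀ e : G → F, IsIdem e →
  Pos ℓ e ⊤ → lnum (⊤ : Subgroup G) e = lnum (Subgroup.normalizer (P : Set G)) e

/-- CYF: the alternating sum vanishes. -/
def CyfStmt : Prop := ∀ (ℓ : ℕ) [Fact ℓ.Prime] (F : Type) [Field F], GoodF ℓ F → ∀ (G : Type)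
  [Group G] [Finite G] (P : Subgroup G), TiS ℓ P → IsCyclic P → opCore ℓ G = ⊥ → ∀ e : G → F,
  IsIdem e → Pos ℓ e ⊤ → YY ℓ ⊤ e = 0

/-- CYT: the Sylow subgroups of nearly simple groups. -/
def CytStmt : Prop := ∀ (ℓ : ℕ) [Fact ℓ.Prime] (D S : Type) [Group D] [Finite D] [Group S]
  [Finite S], opCore ℓ D = ⊥ → NonabSimple S → NearlySimpleL ℓ D S →
  ∀ P : Subgroup S, TiS ℓ P → ∃ U : Subgroup D, TiS ℓ U ∧ Nonempty (U ≃* P)

end Pool.Agent.PP
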