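import Pool.Agent.Helper51_AWC.Abelian

/-!
Alperin's weight conjecture in alternating-sum form at a prime `ℓ` is equivalent to a one-sided
`o(|G|)` bound for the alternating sums.
-/

open scoped BigOperators

noncomputable section

namespace Pool.Agent.Results.MP_6a3f1a_al.GrowthCriterion

open Pool.Agent.Helper51_AWC

/-- `(G, B)` with `B` the block of `χ` is as in Q1: `O_ℓ(G) ≤ Z(G)`, `χ` is an irreducible
character of `G`, and the defect groups of its block strictly contain `O_ℓ(G)`. -/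
def AsInQ1 (ℓ : ℕ) (M : Ideal (integralClosure ℤ ℂ)) (G : Type) [Group G] (χ : G → ℂ) : Prop :=
  opCore ℓ G ≤ Subgroup.center G ∧ χ ∈ Irr G ∧ LargeDefect ℓ M χ

theorem altSum_congr {ℓ : ℕ} {M : Ideal (integralClosure ℤ ℂ)} {G : Type} [Group G]
    {χ ψ : G → ℂ}
    (h : ∀ g : G, Cong M (omega (MonoidHom.id G) ψ g) (omega (MonoidHom.id G) χ g)) :
    altSum ℓ M ψ = altSum ℓ M χ := by
  have : ∀ (H : Subgroup G), IrrBlock M H.subtype ψ = IrrBlock M H.subtype χ := by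
    intro H
    ext ϑ
    constructor
    · rintro ⟨h1, h2⟩; exact ⟨h1, fun g => (h2 g).trans (h g)⟩
    · rintro ⟨h1, h2⟩; exact ⟨h1, fun g => (h2 g).trans (h g).symm⟩
  unfold altSum
  simp only [this]

theorem card_opCore_prod {ℓ : ℕ} [Fact ℓ.Prime] {G₁ G₂ : Type} [Group G₁] [Group G₂] [Finite G₁]
    [Finite G₂] : Nat.card (opCore ℓ (G₁ × G₂)) =
      Nat.card (opCore ℓ G₁) * Nat.card (opCore ℓ G₂) := by
  rw [opCore_prod, Nat.card_congr ((opCore ℓ G₁).prodEquiv (opCore ℓ G₂)).toEquiv, Nat.card_prod]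

theorem center_prod_le {ℓ : ℕ} [Fact ℓ.Prime] {G₁ G₂ : Type} [Group G₁] [Group G₂] [Finite G₁]
    [Finite G₂] (h₁ : opCore ℓ G₁ ≤ Subgroup.center G₁) (h₂ : opCore ℓ G₂ ≤ Subgroup.center G₂) :
    opCore ℓ (G₁ × G₂) ≤ Subgroup.center (G₁ × G₂) := by
  rw [opCore_prod]
  intro x hx
  rw [Subgroup.mem_prod] at hx
  have a := Subgroup.mem_center_iff.1 (h₁ hx.1)
  have b := Subgroup.mem_center_iff.1 (h₂ hx.2)
  exact Subgroup.mem_center_iff.2 fun g => Prod.ext (a g.1) (b g.2)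

/-- For every prime `ℓ` : the alternating sums `S(G, B)` of Q1 vanish for all pairs `(G, B)` as in
Q1 if and only if for every `δ > 0` one has `S(G, B) ≤ δ |G|` for all such pairs with `|G|`
large. -/
theorem result :
    ∀ ℓ : ℕ, ℓ.Prime → ∀ M : Ideal (integralClosure ℤ ℂ), M.IsMaximal →
      (ℓ : integralClosure ℤ ℂ) ∈ M →
      ((∀ (G : Type) [Group G] [Finite G] (χ : G → ℂ), AsInQ1 ℓ M G χ → altSum ℓ M χ = 0) ↔
        ∀ δ : ℝ, 0 < δ → ∃ N : ℕ, ∀ (G : Type) [Group G] [Finite G] (χ : G → ℂ),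
          AsInQ1 ℓ M G χ → N ≤ Nat.card G → (altSum ℓ M χ : ℝ) ≤ δ * Nat.card G) := by
  intro ℓ hp M hM hℓ
  have hfact : Fact ℓ.Prime := ⟨hp⟩
  have hprime : M.IsPrime := hM.isPrime
  constructor
  · intro h δ hδ
    refine ⟨0, fun G _ _ χ hχ _ => ?_⟩
    rw [h G χ hχ]
    simp only [Int.cast_zero]
    positivity
  · intro h G _ _ χ hχ
    by_contra hne
    obtain ⟨hcen, hχI, ψ, hψ, hψχ, n, hn, hdvd⟩ := hχ
    have hfG := Fintype.ofFinite G
    have hS : altSum ℓ M ψ = altSum ℓ M χ := altSum_congr hψχ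
    rw [← hS] at hne
    set s := altSum ℓ M ψ with hs
    set c := Nat.card G with hc
    have hcpos : 0 < c := Nat.card_pos
    obtain ⟨N, hN⟩ := h (1 / (2 * (c : ℝ) ^ 2)) (by positivity)
    -- the central factor
    have hN1 : N ≤ ℓ ^ N := (Nat.lt_pow_self hp.one_lt).le
    have hne0 : NeZero (ℓ ^ N) := ⟨(pow_pos hp.pos N).ne'⟩
    let Z := Multiplicative (ZMod (ℓ ^ N))
    have hZcard : Nat.card Z = ℓ ^ N := by
      show Nat.card (ZMod (ℓ ^ N)) = ℓ ^ N
      simp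
    have hZ : IsPGroup ℓ Z := IsPGroup.of_card hZcard
    have hfZ : Fintype Z := Fintype.ofFinite Z
    have htopZ : opCore ℓ Z = ⊤ := by
      rw [eq_top_iff]
      exact (opCore_spec ℓ Z).2.2 ⊤ inferInstance (hZ.to_subgroup ⊤)
    have h1 := card_le_altSum (M := M) hℓ hZ
    have hone : (fun _ : Z => (1 : ℂ)) ∈ Irr Z := by
      have := linear_mem_Irr (1 : Z →* ℂˣ)
      simpa using this
    -- the sum of the product group
    have h2 : altSum ℓ M (prodChar (prodChar ψ ψ) (fun _ : Z => (1 : ℂ))) =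
        s * s * altSum ℓ M (fun _ : Z => (1 : ℂ)) := by
      rw [altSum_prod ℓ M (prodChar_mem hψ hψ) hone, altSum_prod ℓ M hψ hψ]
    have hcard : Nat.card ((G × G) × Z) = c * c * ℓ ^ N := by
      rw [Nat.card_prod, Nat.card_prod, hZcard]
    have hbig : N ≤ Nat.card ((G × G) × Z) := by
      rw [hcard]
      calc N ≤ 1 * 1 * ℓ ^ N := by simpa using hN1
        _ ≤ c * c * ℓ ^ N := by gcongr <;> exact hcpos
    have hAs : AsInQ1 ℓ M ((G × G) × Z) (prodChar (prodChar ψ ψ) (fun _ : Z => (1 : ℂ))) := by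
      refine ⟨?_, prodChar_mem (prodChar_mem hψ hψ) hone,
        ⟨_, prodChar_mem (prodChar_mem hψ hψ) hone, fun g => Cong.refl _, n * n, ?_, ?_⟩⟩
      · apply center_prod_le (center_prod_le hcen hcen)
        intro x _
        exact Subgroup.mem_center_iff.2 fun g => mul_comm _ _
      · simp [prodChar, hn]
      · rw [card_opCore_prod, card_opCore_prod, htopZ, Subgroup.card_top, hZcard, hcard]
        obtain ⟨k, hk⟩ := hdvd
        refine ⟨ℓ * k * k, ?_⟩
        have hk' : c = ℓ * Nat.card (opCore ℓ G) * n * k := hk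
        calc c * c * ℓ ^ N = (ℓ * Nat.card (opCore ℓ G) * n * k) *
              (ℓ * Nat.card (opCore ℓ G) * n * k) * ℓ ^ N := by rw [← hk']
          _ = _ := by ring
    have h3 := hN _ _ hAs hbig
    rw [h2, hcard] at h3
    have h4 : (1 : ℤ) ≤ s * s := by
      have : 0 < s * s := mul_self_pos.2 hne
      omega
    have h5 : ((ℓ ^ N : ℕ) : ℤ) ≤ s * s * altSum ℓ M (fun _ : Z => (1 : ℂ)) := by
      rw [hZcard] at h1
      have h6 : (0 : ℤ) ≤ altSum ℓ M (fun _ : Z => (1 : ℂ)) := le_trans (by positivity) h1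
      nlinarith
    have h7 : ((ℓ ^ N : ℕ) : ℝ) ≤ ((s * s * altSum ℓ M (fun _ : Z => (1 : ℂ)) : ℤ) : ℝ) := by
      exact_mod_cast h5
    have h8 : (0 : ℝ) < ((ℓ ^ N : ℕ) : ℝ) := by
      exact_mod_cast pow_pos hp.pos N
    have hc' : (0 : ℝ) < (c : ℝ) := by exact_mod_cast hcpos
    have h9 : 1 / (2 * (c : ℝ) ^ 2) * ((c * c * ℓ ^ N : ℕ) : ℝ) = ((ℓ ^ N : ℕ) : ℝ) / 2 := by
      push_cast
      field_simp
    rw [h9] at h3
    linarith

end Pool.Agent.Results.MP_6a3f1a_al.GrowthCriterion
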